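import Pool.Agent.Results.MP_081200_nt.GenericLinearForms

/-!
# The pairs whose cubic residue symbols have large short sums are thin
-/

set_option autoImplicit false

open Finset

namespace Pool.Agent.L7h69.CS

open Pool.Agent.Results.MP_081200_nt.FewDigitCubicCharacters (Eis nm IsSymbol shortSum)
open Pool.Agent.Results.MP_081200_nt.GenericLinearForms (SmallSums progressionSum wt wt_le sum_wt exc_spec norm_two)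
open Pool.Agent.N251.LF (Fails thin_digit)

/-- the exceptional pairs up to `X` number at most `C X ^ (2 - 2 κ A + ε)` -/
theorem thin_pairs {δ : ℝ} (hδ : 0 < δ) (A : ℕ) : ∃ c : ℝ, 0 < c ∧ ∀ κ : ℝ, 0 < κ → κ * A ≤ 1 → ∀ ε : ℝ, 0 < ε →
    ∃ C : ℝ, 0 ≤ C ∧ ∀ X : ℝ, 1 ≤ X → {m : Fin 2 → ℕ | ¬ SmallSums δ κ c A m ∧ ∀ l, (m l : ℝ) ≤ X}.Finite ∧
      (({m : Fin 2 → ℕ | ¬ SmallSums δ κ c A m ∧ ∀ l, (m l : ℝ) ≤ X}.ncard : ℕ) : ℝ) ≤ C * X ^ (2 - 2 * (κ * A) + ε) := by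
  classical
  obtain ⟨c, hc, y₀, h⟩ := Pool.Agent.Results.MP_081200_nt.FewDigitCubicCharacters.result 2 le_rfl δ hδ (2 * A)
  refine ⟨c / 4, by positivity, fun κ hκ hκA ε hε => ?_⟩
  have hΛ : ∀ x : ℕ, ((Icc 1 (x ^ A)) ×ˢ (range (x ^ A)) : Finset (ℕ × ℕ)).card ≤ x ^ (2 * A) := by
    intro x
    rw [card_product, Nat.card_Icc, card_range, two_mul, pow_add]
    simp
  obtain ⟨C, hC⟩ := thin_digit (d := 2) (c := c) hc (max y₀ 1) (2 * A)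
    (fun X m => ¬ (3 : ℤ) ∣ nm (⟨m 0, m 1⟩ : Eis) → ∀ ψ : DirichletCharacter ℂ (nm (⟨m 0, m 1⟩ : Eis)).natAbs,
      IsSymbol ⟨m 0, m 1⟩ ψ → ∀ p ∈ ((Icc 1 (X ^ A)) ×ˢ (range (X ^ A)) : Finset (ℕ × ℕ)), ∀ t : ℝ, |t| ≤ (X : ℝ) ^ (2 * A) →
        ∀ M M' : ℕ, M' ≤ X → ‖shortSum ψ (wt p) t M M'‖ ≤ (X : ℝ) ^ (1 / 2 + δ)) (by
      intro K r y hrK hy N hN f hf
      have h3 := h K r y hrK ((le_max_left _ _).trans hy) N hN f hf (ℕ × ℕ) wt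
        (fun x => (Icc 1 (x ^ A)) ×ˢ (range (x ^ A))) wt_le hΛ
      obtain ⟨W, hW1, hW2⟩ := exc_spec 2 K r N f (fun α => ¬ (3 : ℤ) ∣ nm α → ∀ ψ : DirichletCharacter ℂ (nm α).natAbs, IsSymbol α ψ →
        ∀ x : ℕ, y ≤ x → (∀ l, (x : ℝ) ≤ Real.exp (c * r l)) → ∀ i ∈ ((Icc 1 (x ^ A)) ×ˢ (range (x ^ A)) : Finset (ℕ × ℕ)),
          ∀ τ : ℝ, |τ| ≤ (x : ℝ) ^ (2 * A) → ∀ M M' : ℕ, M' ≤ x → ‖shortSum ψ (wt i) τ M M'‖ ≤ (x : ℝ) ^ (1 / 2 + δ))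
      rw [← hW1] at h3
      refine ⟨W, h3, fun S hS hSW x hyx hxr => ?_⟩
      exact fun h4 ψ hψ p hp t ht M M' hM => hW2 S hS hSW h4 ψ hψ x hyx hxr p hp t ht M M' hM)
    hκ (by push_cast; linarith) ε hε
  have hsub : ∀ X : ℝ, {m : Fin 2 → ℕ | ¬ SmallSums δ κ (c / 4) A m ∧ ∀ l, (m l : ℝ) ≤ X} ⊆
      {m | m ∈ Fails (fun X m => ¬ (3 : ℤ) ∣ nm (⟨m 0, m 1⟩ : Eis) → ∀ ψ : DirichletCharacter ℂ (nm (⟨m 0, m 1⟩ : Eis)).natAbs,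
        IsSymbol ⟨m 0, m 1⟩ ψ → ∀ p ∈ ((Icc 1 (X ^ A)) ×ˢ (range (X ^ A)) : Finset (ℕ × ℕ)), ∀ t : ℝ, |t| ≤ (X : ℝ) ^ (2 * A) →
        ∀ M M' : ℕ, M' ≤ X → ‖shortSum ψ (wt p) t M M'‖ ≤ (X : ℝ) ^ (1 / 2 + δ)) κ c ∧ ∀ l, |((m l : ℕ) : ℝ)| ≤ X} := by
    rintro X m ⟨h1, h2⟩
    refine ⟨fun hgood => h1 ?_, fun l => by rw [abs_of_nonneg (Nat.cast_nonneg _)]; exact h2 l⟩
    intro h3 ψ hψ X hX1 hX2 k' a hk hkX t ht M M' hM'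
    rw [norm_two] at hgood
    rcases Nat.eq_zero_or_pos M' with h0 | h0
    · rw [h0]
      unfold progressionSum
      rw [Ioc_eq_empty (by omega)]
      simp only [filter_empty, sum_empty, norm_zero]
      positivity
    have hX0 : (1 : ℝ) ≤ X := by exact_mod_cast h0.trans_le hM'
    rw [sum_wt]
    refine hgood X hX1 hX2 h3 ψ hψ (k', a % k') ?_ t ?_ M M' hM'
    · exact mem_product.2 ⟨mem_Icc.2 ⟨hk, hkX⟩, mem_range.2 ((Nat.mod_lt _ hk).trans_le hkX)⟩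
    · exact ht.trans (pow_le_pow_right₀ hX0 (by omega))
  refine ⟨max C 0, le_max_right _ _, fun X hX => ⟨(hC X hX).1.subset (hsub X), ?_⟩⟩
  refine (Nat.cast_le.2 (Set.ncard_le_ncard (hsub X) (hC X hX).1)).trans ((hC X hX).2.trans ?_)
  have h5 : ((2 : ℕ) : ℝ) - κ * ((2 * A : ℕ) : ℝ) + ε = 2 - 2 * (κ * A) + ε := by push_cast; ring
  rw [h5]
  exact mul_le_mul_of_nonneg_right (le_max_left _ _) (Real.rpow_nonneg (by linarith) _)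

end Pool.Agent.L7h69.CS
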